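import Pool.Agent.N763.AW.Cls
import Pool.Agent.N843.CK.Stm

/-!
# Project CK: the class `1` modulo `8` in terms of the labels, and the translation between elements
and sets of primes (helper413; a port of `Pool/Agent/N763/AW/Cls.lean` of helper763)

`D = 1` modulo `8` if and only if `tt D = 0`, `gg D = 0` and `hh D = 0`.
-/

set_option autoImplicit false

open scoped Classical

namespace Pool.Agent.N413.CK

open Finset
open Pool.Agent.Y698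
open Pool.Agent.R426.QK
open Pool.Agent.R426.QD (r4 r4_eq r4_a)
open Pool.Agent.N848.AW (gg hh r8)
open Pool.Agent.N763.AW (r8_eq r8_cj nrm_co r4_iff prm_co prm_X prm_Y nrm_four1 tt_zero_iff sum_gg
  sum_hh sum_tt nrm_prod)
open Pool.Agent.N843.CK

/-! ### The class modulo 8 -/

theorem eight_dvd_iff (D : RR) : (8 : RR) ∣ D - 1 ↔ (8 : ℤ) ∣ cX D - 1 ∧ (8 : ℤ) ∣ cY D := by
  have h5 : cX (1 : RR) = 1 ∧ cY (1 : RR) = 0 := by
    have := cXY_int 1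
    push_cast at this
    exact this
  have h1 : cX (D - 1) = cX D - 1 ∧ cY (D - 1) = cY D := by
    rw [sub_eq_add_neg, (cXY_add _ _).1, (cXY_add _ _).2, (cXY_neg _).1, (cXY_neg _).2,
      h5.1, h5.2]
    constructor <;> ring
  have h4 : cX (8 : RR) = 8 ∧ cY (8 : RR) = 0 := by
    have := cXY_int 8
    push_cast at this
    exact this
  constructor
  · rintro ⟨c, hc⟩
    rw [← h1.1, ← h1.2, hc, (cXY_mul _ _).1, (cXY_mul _ _).2, h4.1, h4.2]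
    exact ⟨⟨cX c, by ring⟩, ⟨cY c, by ring⟩⟩
  · rintro ⟨⟨a, ha⟩, ⟨b, hb⟩⟩
    refine ⟨mk (a, b), RR_ext ?_ ?_⟩
    · rw [h1.1, (cXY_mul _ _).1, h4.1, h4.2, (cXY_mk _).1, ha]
      ring
    · rw [h1.2, (cXY_mul _ _).2, h4.1, h4.2, (cXY_mk _).2, hb]
      ring

theorem res_iff {D : RR} (h : prm D) :
    (8 : RR) ∣ D - 1 ↔ tt D = 0 ∧ gg D = 0 ∧ hh D = 0 := by
  rw [eight_dvd_iff, tt_zero_iff h, nrm_four1, nrm_co]
  have e1 : gg D = 0 ↔ r8 D = 1 := by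
    unfold gg
    split_ifs with h1
    · exact ⟨fun _ => h1, fun _ => rfl⟩
    · exact ⟨fun h2 => absurd h2 (by decide), fun h2 => absurd h2 h1⟩
  have e2 : hh D = 0 ↔ (r8 (cj D) = 1 ∨ r8 (cj D) = 7) := by
    unfold hh
    split_ifs with h1
    · exact ⟨fun _ => h1, fun _ => rfl⟩
    · exact ⟨fun h2 => absurd h2 (by decide), fun h2 => absurd h2 h1⟩
  rw [e1, e2, r8_eq, r8_cj]
  have e3 : (8 : ℤ) ∣ cX D - 1 ↔ (cX D : ZMod 8) = 1 := by
    have h5 : (1 : ZMod 8) = ((1 : ℤ) : ZMod 8) := by norm_num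
    rw [h5, ZMod.intCast_eq_intCast_iff_dvd_sub]
    push_cast
    omega
  have e4 : (8 : ℤ) ∣ cY D ↔ (cY D : ZMod 8) = 0 := by
    rw [ZMod.intCast_zmod_eq_zero_iff_dvd]
    rfl
  rw [e3, e4]
  have key : ∀ X Y : ZMod 8, (X = 1 ∨ X = 5) → (Y = 0 ∨ Y = 2 ∨ Y = 4 ∨ Y = 6) →
      ((X = 1 ∧ Y = 0) ↔
        ((X ^ 2 + X * Y + 2 * Y ^ 2 = 1 ∨ X ^ 2 + X * Y + 2 * Y ^ 2 = 5) ∧
          X + 6 * Y = 1 ∧ (X + 3 * Y = 1 ∨ X + 3 * Y = 7))) := by decide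
  exact key _ _ (prm_X h) (prm_Y h)

theorem prm_of {D : RR} (h : Cls1 D) : prm D := by
  obtain ⟨-, h2, h3⟩ := h
  refine ⟨?_, ?_, h3⟩
  · rw [eight_dvd_iff] at h2
    rw [r4_iff]
    omega
  · intro hc
    have d2 : cj aR ∣ (2 : RR) := by
      rw [two_eq]
      exact dvd_mul_left _ _
    have d8 : cj aR ∣ D - 1 := (d2.trans ⟨4, by norm_num⟩).trans h2
    have d1 : cj aR ∣ (1 : RR) := by
      have := dvd_sub hc d8
      rwa [sub_sub_cancel] at this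
    exact prime_cjaR.not_isUnit (isUnit_of_dvd_one d1)

theorem cls_iff (D : RR) : Cls1 D ↔ PS D ∧ tt D = 0 ∧ gg D = 0 ∧ hh D = 0 := by
  constructor
  · intro h
    have hp := prm_of h
    exact ⟨⟨hp, h.1⟩, (res_iff hp).1 h.2.1⟩
  · rintro ⟨hP, h⟩
    exact ⟨hP.sqf, (res_iff hP.prm).2 h, hP.prm.cop7⟩

theorem t_CLS1 : Pool.Agent.N843.CK.S_CLS1 := by
  constructor
  · intro D h
    obtain ⟨hP, h1, h2, h3⟩ := (cls_iff D).1 h
    have hq : ∀ π ∈ Pool.Agent.R426.QK.PD D, Pq π := fun π hπ => ((mem_PD hP.ne).1 hπ).1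
    refine ⟨hq, hP.prod, ?_, ?_, ?_⟩
    · rw [sum_tt hq, hP.prod, h1]
    · rw [sum_gg hq, hP.prod, h2]
    · rw [sum_hh hq, hP.prod, h3]
  · rintro S hS h1 ⟨h2, h3⟩
    obtain ⟨h5, -⟩ := PS_prod hS
    rw [sum_tt hS] at h1
    rw [sum_gg hS] at h2
    rw [sum_hh hS] at h3
    exact (cls_iff _).2 ⟨h5, h1, h2, h3⟩

/-! ### Translation between elements and sets of primes -/

theorem mem_S1 {X : ℕ} {S : Finset RR} : S ∈ S1 X ↔ S ⊆ QB X ∧ (∀ π ∈ S, Pq π) ∧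
    ∑ π ∈ S, tt π = 0 ∧ C1 S ∧ ∏ π ∈ S, nrm π ≤ X := by
  unfold S1 SS
  rw [Finset.mem_filter, Finset.mem_filter, Finset.mem_powerset]
  unfold Cl
  constructor
  · rintro ⟨⟨h1, ⟨h2, h3⟩, h4⟩, h5⟩
    refine ⟨h1, h2, ?_, h5, h4⟩
    rw [sum_tt h2, tt_zero_iff (prm_prod fun π hπ => (h2 π hπ).prm), nrm_prod]
    exact h3
  · rintro ⟨h1, h2, h3, h4, h5⟩
    refine ⟨⟨h1, ⟨h2, ?_⟩, h5⟩, h4⟩
    rw [sum_tt h2, tt_zero_iff (prm_prod fun π hπ => (h2 π hπ).prm), nrm_prod] at h3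
    exact h3

theorem card_eq (hC : S_CLS1) (X : ℕ) (Q : Finset RR → Prop) :
    {D : RR | nrm D ≤ X ∧ Cls1 D ∧ Q (Pool.Agent.R426.QK.PD D)}.ncard =
      ((S1 X).filter Q).card := by
  have h1 : {D : RR | nrm D ≤ X ∧ Cls1 D ∧ Q (Pool.Agent.R426.QK.PD D)} =
      (fun S : Finset RR => ∏ π ∈ S, π) '' (((S1 X).filter Q : Finset (Finset RR)) :
        Set (Finset RR)) := by
    ext D
    constructor
    · rintro ⟨h4, h2, h3⟩
      obtain ⟨a1, a2, a3, a4⟩ := hC.1 D h2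
      have hne : D ≠ 0 := prm_ne_zero (prm_of h2)
      refine ⟨Pool.Agent.R426.QK.PD D, ?_, a2⟩
      rw [Finset.mem_coe, Finset.mem_filter, mem_S1]
      refine ⟨⟨fun π hπ => ?_, a1, a3, a4, ?_⟩, h3⟩
      · obtain ⟨h5, h6⟩ := (mem_PD hne).1 hπ
        exact mem_QB.2 ⟨(norm_le_of_dvd hne h6).trans h4, h5⟩
      · rw [← nrm_prod, a2]
        exact h4
    · rintro ⟨S, hS, rfl⟩
      rw [Finset.mem_coe, Finset.mem_filter, mem_S1] at hS
      obtain ⟨⟨-, h3, h4, h5, h6⟩, h2⟩ := hS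
      refine ⟨?_, hC.2 S h3 h4 h5, by rw [(PS_prod h3).2]; exact h2⟩
      rw [nrm_prod]
      exact h6
  rw [h1, Set.InjOn.ncard_image, Set.ncard_coe_finset]
  intro S hS S' hS' h
  rw [Finset.mem_coe, Finset.mem_filter, mem_S1] at hS hS'
  rw [← (PS_prod hS.1.2.1).2, ← (PS_prod hS'.1.2.1).2]
  exact congrArg Pool.Agent.R426.QK.PD h

theorem t_NS1 : Pool.Agent.N843.CK.S_NS1 := by
  intro hC h hL
  unfold S_DQ1 at h
  unfold S_DEN1
  have e1 : ∀ X : ℕ, {D : RR | nrm D ≤ X ∧ Cls1 D}.ncard = (S1 X).card := by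
    intro X
    have h := card_eq hC X (fun _ => True)
    rw [Finset.filter_true] at h
    rw [← h]
    congr 1
    ext D
    simp only [Set.mem_ofPred_eq, and_true]
  refine ⟨h.congr fun X => ?_, ?_⟩
  · rw [e1 X, card_eq hC X Pool.Agent.R426.QK.Gd]
  · obtain ⟨c, X₀, hc, hX⟩ := hL
    refine ⟨c, X₀, hc, fun X h0 => ?_⟩
    rw [e1 X]
    exact hX X h0

end Pool.Agent.N413.CK
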